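import Mathlib
import Pool.Agent.Y820.LB.Res

/-!
# The height of a pair of polynomials and the mean of the measures of a pencil
-/

set_option autoImplicit false

namespace Pool.Agent.Run7.h260.SX

open MeasureTheory Polynomial Filter
open Pool.Agent.H261R2.CM (ez D_norm_ez D_circleAverage D_ez_eq D_continuous_ez)
open Pool.Agent.W242.IM (ae_eval_ne)
open Pool.Agent.Y820.LB (integrable_log log_mahler)

noncomputable section

/-- the inner integral -/
theorem inner_circ (a b : ℂ) :
    Real.log (max ‖a‖ ‖b‖) = ∫ s in (0:ℝ)..1, Real.log ‖a + ez s * b‖ := by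
  have h1 := log_mahler (C b * X + C a)
  have h2 : ∀ s : ℝ, (C b * X + C a).eval (ez s) = a + ez s * b := fun s => by
    simp; ring
  simp only [h2] at h1
  rw [← h1]
  by_cases hb : b = 0
  · subst hb
    simp
  · rw [mahlerMeasure_C_mul_X_add_C hb, max_comm]

theorem height_circle (f g : ℂ[X]) (K : ℝ)
    (h : ∀ c : ℂ, ‖c‖ = 1 → 1 ≤ (f + C c * g).mahlerMeasure ∧
      Real.log (f + C c * g).mahlerMeasure ≤ K) :
    IntervalIntegrable (fun t => Real.log (max ‖f.eval (ez t)‖ ‖g.eval (ez t)‖)) volume 0 1 ∧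
      ∫ t in (0:ℝ)..1, Real.log (max ‖f.eval (ez t)‖ ‖g.eval (ez t)‖) ≤ K := by
  have hfc : Continuous fun t => f.eval (ez t) := f.continuous.comp D_continuous_ez
  have hgc : Continuous fun t => g.eval (ez t) := g.continuous.comp D_continuous_ez
  obtain ⟨M, hM⟩ : ∃ M : ℝ, ∀ t ∈ Set.uIcc (0:ℝ) 1, ‖f.eval (ez t)‖ + ‖g.eval (ez t)‖ ≤ M := by
    obtain ⟨M, hM⟩ := (isCompact_uIcc (a := (0:ℝ)) (b := 1)).bddAbove_image
      (f := fun t => ‖f.eval (ez t)‖ + ‖g.eval (ez t)‖) (by fun_prop)
    exact ⟨M, fun t ht => hM ⟨t, ht, rfl⟩⟩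
  set B : ℝ := Real.log (max M 1) with hB
  have hB0 : 0 ≤ B := Real.log_nonneg (le_max_right _ _)
  have hlogB : ∀ x : ℝ, 0 ≤ x → x ≤ M → Real.log x ≤ B := by
    intro x hx0 hx
    rcases eq_or_lt_of_le hx0 with h0 | h0
    · rw [← h0, Real.log_zero]
      exact hB0
    · exact Real.log_le_log h0 (hx.trans (le_max_left _ _))
  set F : ℝ → ℝ → ℝ := fun t s => Real.log ‖f.eval (ez t) + ez s * g.eval (ez t)‖ with hF
  have hFe : ∀ t s, F t s = Real.log ‖(f + C (ez s) * g).eval (ez t)‖ := by
    intro t s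
    simp [hF]
  have hnorm : ∀ t s, ‖f.eval (ez t) + ez s * g.eval (ez t)‖ ≤
      ‖f.eval (ez t)‖ + ‖g.eval (ez t)‖ := by
    intro t s
    refine (norm_add_le _ _).trans ?_
    rw [norm_mul, D_norm_ez, one_mul]
  have hFle : ∀ t ∈ Set.uIcc (0:ℝ) 1, ∀ s, F t s ≤ B := fun t ht s =>
    hlogB _ (norm_nonneg _) ((hnorm t s).trans (hM t ht))
  have hFabs : ∀ t ∈ Set.uIcc (0:ℝ) 1, ∀ s, |F t s| ≤ 2 * B - F t s := by
    intro t ht s
    have h1 := hFle t ht s
    rw [abs_le]
    constructor
    · linarith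
    · rcases le_total 0 (F t s) with h2 | h2 <;> linarith
  have hFm : Measurable (Function.uncurry F) := by
    have h1 : Continuous fun q : ℝ × ℝ => ‖f.eval (ez q.1) + ez q.2 * g.eval (ez q.1)‖ := by
      have h2 := D_continuous_ez
      have h3 : Continuous fun q : ℝ × ℝ => f.eval (ez q.1) := hfc.comp continuous_fst
      have h4 : Continuous fun q : ℝ × ℝ => g.eval (ez q.1) := hgc.comp continuous_fst
      have h5 : Continuous fun q : ℝ × ℝ => ez q.2 := h2.comp continuous_snd
      exact (h3.add (h5.mul h4)).norm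
    exact Real.measurable_log.comp h1.measurable
  have hFt : ∀ s, IntervalIntegrable (fun t => F t s) volume 0 1 ∧
      ∫ t in (0:ℝ)..1, F t s ≤ K ∧ 0 ≤ ∫ t in (0:ℝ)..1, F t s := by
    intro s
    obtain ⟨h1, h2⟩ := h (ez s) (D_norm_ez s)
    simp only [hFe]
    rw [← log_mahler]
    exact ⟨integrable_log _, h2, Real.log_nonneg h1⟩
  set ν : Measure ℝ := volume.restrict (Set.Ioc 0 1) with hν
  have hsub : ∀ t ∈ Set.Ioc (0:ℝ) 1, t ∈ Set.uIcc (0:ℝ) 1 := by
    intro t ht
    rw [Set.uIcc_of_le zero_le_one]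
    exact ⟨ht.1.le, ht.2⟩
  have hprod : Integrable (Function.uncurry F) (ν.prod ν) := by
    rw [integrable_prod_iff' hFm.aestronglyMeasurable]
    constructor
    · refine Eventually.of_forall fun s => ?_
      have := (hFt s).1
      rw [intervalIntegrable_iff_integrableOn_Ioc_of_le zero_le_one] at this
      exact this
    · refine Integrable.of_bound (C := 2 * B) ?_ ?_
      · exact (hFm.norm.stronglyMeasurable.integral_prod_left').aestronglyMeasurable
      · refine Eventually.of_forall fun s => ?_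
        rw [Real.norm_eq_abs, abs_of_nonneg (integral_nonneg fun t => norm_nonneg _)]
        have h1 := (hFt s).1
        rw [intervalIntegrable_iff_integrableOn_Ioc_of_le zero_le_one] at h1
        have h2 : ∫ t, ‖F t s‖ ∂ν ≤ ∫ t, (2 * B - F t s) ∂ν := by
          refine integral_mono_ae h1.norm ((integrable_const _).sub h1) ?_
          rw [hν]
          filter_upwards [ae_restrict_mem measurableSet_Ioc] with t ht
          exact hFabs t (hsub t ht) s
        refine h2.trans ?_
        rw [integral_sub (integrable_const _) h1]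
        have h3 := (hFt s).2.2
        rw [intervalIntegral.integral_of_le zero_le_one] at h3
        simp only [integral_const, smul_eq_mul]
        have h4 : ν.real Set.univ = 1 := by
          rw [hν]
          simp
        rw [h4]
        linarith
  have hswap : ∫ t in (0:ℝ)..1, (∫ s in (0:ℝ)..1, F t s) =
      ∫ s in (0:ℝ)..1, (∫ t in (0:ℝ)..1, F t s) := by
    simp only [intervalIntegral.integral_of_le zero_le_one]
    exact integral_integral_swap hprod
  have hFint : IntervalIntegrable (fun t => ∫ s in (0:ℝ)..1, F t s) volume 0 1 := by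
    rw [intervalIntegrable_iff_integrableOn_Ioc_of_le zero_le_one]
    simp only [intervalIntegral.integral_of_le zero_le_one]
    exact hprod.integral_prod_left
  have heq : ∀ t, Real.log (max ‖f.eval (ez t)‖ ‖g.eval (ez t)‖) = ∫ s in (0:ℝ)..1, F t s :=
    fun t => inner_circ _ _
  simp only [heq]
  refine ⟨hFint, ?_⟩
  rw [hswap]
  have h2 : ∫ s in (0:ℝ)..1, (∫ t in (0:ℝ)..1, F t s) ≤ ∫ s in (0:ℝ)..1, K := by
    refine intervalIntegral.integral_mono_on zero_le_one ?_ intervalIntegrable_const
      (fun s _ => (hFt s).2.1)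
    rw [intervalIntegrable_iff_integrableOn_Ioc_of_le zero_le_one]
    simp only [intervalIntegral.integral_of_le zero_le_one]
    exact hprod.integral_prod_right
  rw [intervalIntegral.integral_const] at h2
  simpa using h2

end

end Pool.Agent.Run7.h260.SX
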