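import Mathlib

/-!
# Mahler measures of characteristic polynomials and positive definite majorants
-/

set_option autoImplicit false

namespace Pool.Agent.Run7.h260.SX

open Matrix Polynomial ComplexOrder

noncomputable section

/-- the value of the form -/
def q {ι : Type} [Fintype ι] (M : Matrix ι ι ℂ) (x : ι → ℂ) : ℂ := star x ⬝ᵥ (M *ᵥ x)

variable {ι κ : Type} [Fintype ι] [Fintype κ] [DecidableEq ι] [DecidableEq κ]

omit [DecidableEq ι] in
lemma q_sub (M N : Matrix ι ι ℂ) (x : ι → ℂ) : q (M - N) x = q M x - q N x := by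
  unfold q; rw [sub_mulVec, dotProduct_sub]

omit [DecidableEq ι] in
lemma q_conj (M X : Matrix ι ι ℂ) (x : ι → ℂ) : q (Xᴴ * M * X) x = q M (X *ᵥ x) := by
  unfold q
  simp only [star_mulVec, dotProduct_mulVec, vecMul_vecMul]

omit [DecidableEq ι] in
lemma q_nonneg_of {M : Matrix ι ι ℂ} (h : M.PosSemidef) (x : ι → ℂ) : 0 ≤ q M x :=
  h.dotProduct_mulVec_nonneg x

omit [DecidableEq ι] in
lemma q_le_of {M N : Matrix ι ι ℂ} (h : (M - N).PosSemidef) (x : ι → ℂ) : q N x ≤ q M x := by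
  have := q_nonneg_of h x
  rw [q_sub] at this
  exact sub_nonneg.mp this

omit [DecidableEq ι] in
lemma psd_sub_of {M N : Matrix ι ι ℂ} (hM : M.IsHermitian) (hN : N.IsHermitian)
    (h : ∀ x, q N x ≤ q M x) : (M - N).PosSemidef := by
  refine .of_dotProduct_mulVec_nonneg (hM.sub hN) fun x => ?_
  have := sub_nonneg.mpr (h x)
  rw [← q_sub] at this
  exact this

lemma schur {A : Matrix ι ι ℂ} (B : Matrix ι κ ℂ) (D : Matrix κ κ ℂ) (hA : A.PosDef)
    (x : ι → ℂ) (y : κ → ℂ) :
    q (fromBlocks A B Bᴴ D) (Sum.elim x y) =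
      q A (x + (A⁻¹ * B) *ᵥ y) + q (D - Bᴴ * A⁻¹ * B) y := by
  have hu : IsUnit A := hA.isUnit
  letI : Invertible A := hu.invertible
  unfold q
  rw [dotProduct_mulVec, schur_complement_eq₁₁ B D _ _ hA.1, dotProduct_mulVec, dotProduct_mulVec]

/-- the Schur complement -/
def sc (M : Matrix (Unit ⊕ κ) (Unit ⊕ κ) ℂ) : Matrix κ κ ℂ :=
  M.toBlocks₂₂ - M.toBlocks₁₂ᴴ * M.toBlocks₁₁⁻¹ * M.toBlocks₁₂

omit [Fintype κ] [DecidableEq κ] in
lemma blocks_herm {M : Matrix (Unit ⊕ κ) (Unit ⊕ κ) ℂ} (h : M.IsHermitian) :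
    M = fromBlocks M.toBlocks₁₁ M.toBlocks₁₂ M.toBlocks₁₂ᴴ M.toBlocks₂₂ := by
  conv_lhs => rw [← fromBlocks_toBlocks M]
  congr 1
  ext i j
  have := congrFun (congrFun h (Sum.inr i)) (Sum.inl j)
  simp only [conjTranspose_apply] at this
  simp only [toBlocks₂₁, toBlocks₁₂, conjTranspose_apply, of_apply]
  exact this.symm

omit [Fintype κ] [DecidableEq κ] in
lemma herm11 {M : Matrix (Unit ⊕ κ) (Unit ⊕ κ) ℂ} (h : M.PosDef) : M.toBlocks₁₁.PosDef := by
  have : M.toBlocks₁₁ = M.submatrix Sum.inl Sum.inl := rfl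
  rw [this]
  exact h.submatrix Sum.inl_injective

lemma sc_q {M : Matrix (Unit ⊕ κ) (Unit ⊕ κ) ℂ} (h : M.PosDef) (x : Unit → ℂ) (y : κ → ℂ) :
    q M (Sum.elim x y) =
      q M.toBlocks₁₁ (x + (M.toBlocks₁₁⁻¹ * M.toBlocks₁₂) *ᵥ y) + q (sc M) y := by
  conv_lhs => rw [blocks_herm h.1]
  exact schur _ _ (herm11 h) x y

lemma sc_herm {M : Matrix (Unit ⊕ κ) (Unit ⊕ κ) ℂ} (h : M.PosDef) : (sc M).IsHermitian := by
  have h1 := blocks_herm h.1
  have h2 : M.toBlocks₂₂.IsHermitian := by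
    have : M.toBlocks₂₂ = M.submatrix Sum.inr Sum.inr := rfl
    rw [this]
    exact h.1.submatrix _
  exact h2.sub (isHermitian_conjTranspose_mul_mul _ (herm11 h).1.inv)

lemma sc_min {M : Matrix (Unit ⊕ κ) (Unit ⊕ κ) ℂ} (h : M.PosDef) (y : κ → ℂ) :
    q (sc M) y = q M (Sum.elim (-((M.toBlocks₁₁⁻¹ * M.toBlocks₁₂) *ᵥ y)) y) := by
  rw [sc_q h, neg_add_cancel]
  simp [q]

lemma sc_le {M : Matrix (Unit ⊕ κ) (Unit ⊕ κ) ℂ} (h : M.PosDef) (x : Unit → ℂ) (y : κ → ℂ) :
    q (sc M) y ≤ q M (Sum.elim x y) := by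
  rw [sc_q h]
  exact le_add_of_nonneg_left (q_nonneg_of (herm11 h).posSemidef _)

lemma sc_posDef {M : Matrix (Unit ⊕ κ) (Unit ⊕ κ) ℂ} (h : M.PosDef) : (sc M).PosDef := by
  refine .of_dotProduct_mulVec_pos (sc_herm h) fun y hy => ?_
  have h1 := sc_min h y
  unfold q at h1
  rw [h1]
  refine h.dotProduct_mulVec_pos fun h0 => hy ?_
  funext i
  exact congrFun h0 (Sum.inr i)

lemma sc_det {M : Matrix (Unit ⊕ κ) (Unit ⊕ κ) ℂ} (h : M.PosDef) :
    M.det = M.toBlocks₁₁.det * (sc M).det := by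
  have hu : IsUnit M.toBlocks₁₁ := (herm11 h).isUnit
  letI : Invertible M.toBlocks₁₁ := hu.invertible
  conv_lhs => rw [blocks_herm h.1, det_fromBlocks₁₁]
  rw [invOf_eq_nonsing_inv]
  rfl

omit [DecidableEq κ] in
lemma mulVec_blocks (X : Matrix (Unit ⊕ κ) (Unit ⊕ κ) ℂ) (hX : X.toBlocks₂₁ = 0)
    (x : Unit → ℂ) (y : κ → ℂ) :
    X *ᵥ (Sum.elim x y) = Sum.elim (X.toBlocks₁₁ *ᵥ x + X.toBlocks₁₂ *ᵥ y)
      (X.toBlocks₂₂ *ᵥ y) := by
  conv_lhs => rw [← fromBlocks_toBlocks X, hX]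
  rw [fromBlocks_mulVec]
  simp

/-- the case of size one -/
lemma size_one (l a g : ℂ) (hg : 0 < g) (h1 : g ≤ a) (h2 : star l * g * l ≤ a) :
    (max 1 ‖l‖) ^ 2 * ‖g‖ ≤ ‖a‖ := by
  have hg' : 0 ≤ g := hg.le
  have ha : 0 ≤ a := hg'.trans h1
  have e1 : ‖g‖ = g.re := by
    simpa using congrArg Complex.re (Complex.norm_of_nonneg' hg')
  have e2 : ‖a‖ = a.re := by
    simpa using congrArg Complex.re (Complex.norm_of_nonneg' ha)
  have k1 : g.re ≤ a.re := (Complex.le_def.mp h1).1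
  have k2 := (Complex.le_def.mp h2).1
  have k3 : (star l * g * l).re = ‖l‖ ^ 2 * g.re := by
    have : star l * g * l = ((‖l‖ ^ 2 : ℝ) : ℂ) * g := by
      have := Complex.conj_mul' l
      rw [show star l = (starRingEnd ℂ) l from rfl]
      push_cast
      linear_combination g * this
    rw [this, Complex.re_ofReal_mul]
  rw [k3] at k2
  rw [e1, e2]
  rcases max_cases 1 ‖l‖ with h | h
  · rw [h.1]; linarith
  · rw [h.1]; exact k2

/-- the induction step in block form -/
lemma step (X G H : Matrix (Unit ⊕ κ) (Unit ⊕ κ) ℂ) (hX : X.toBlocks₂₁ = 0)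
    (hG : G.PosDef) (hH : (H - G).PosSemidef) (hHX : (H - Xᴴ * G * X).PosSemidef)
    (ih : ∀ X G H : Matrix κ κ ℂ, G.PosDef → (H - G).PosSemidef → (H - Xᴴ * G * X).PosSemidef →
      X.charpoly.mahlerMeasure ^ 2 * ‖G.det‖ ≤ ‖H.det‖) :
    X.charpoly.mahlerMeasure ^ 2 * ‖G.det‖ ≤ ‖H.det‖ := by
  have hHd : H.PosDef := by
    have : H = G + (H - G) := by abel
    rw [this]
    exact hG.add_posSemidef hH
  -- the second factor
  have h2 : X.toBlocks₂₂.charpoly.mahlerMeasure ^ 2 * ‖(sc G).det‖ ≤ ‖(sc H).det‖ := by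
    refine ih _ _ _ (sc_posDef hG) ?_ ?_
    · refine psd_sub_of (sc_herm hHd) (sc_herm hG) fun y => ?_
      rw [sc_min hHd y]
      exact (sc_le hG _ y).trans (q_le_of hH _)
    · refine psd_sub_of (sc_herm hHd) (isHermitian_conjTranspose_mul_mul _ (sc_herm hG))
        fun y => ?_
      rw [sc_min hHd y, q_conj]
      refine le_trans ?_ (q_le_of hHX _)
      rw [q_conj, mulVec_blocks X hX]
      exact sc_le hG _ _
  -- the first factor
  have h1 : X.toBlocks₁₁.charpoly.mahlerMeasure ^ 2 * ‖G.toBlocks₁₁.det‖ ≤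
      ‖H.toBlocks₁₁.det‖ := by
    have e : ∀ M : Matrix Unit Unit ℂ, M.det = M () () := fun M => by
      rw [det_unique]
    have hc : X.toBlocks₁₁.charpoly = Polynomial.X - C (X (Sum.inl ()) (Sum.inl ())) := by
      unfold Matrix.charpoly
      rw [det_unique, charmatrix_apply_eq]
      rfl
    rw [hc, mahlerMeasure_X_sub_C, e, e]
    have k : ∀ M : Matrix (Unit ⊕ κ) (Unit ⊕ κ) ℂ,
        q M (Sum.elim (fun _ => 1) 0) = M (Sum.inl ()) (Sum.inl ()) := by
      intro M
      unfold q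
      simp [dotProduct, mulVec]
    have k2 : X *ᵥ (Sum.elim (fun _ => 1) 0) =
        X (Sum.inl ()) (Sum.inl ()) • (Sum.elim (fun _ => 1) 0 : Unit ⊕ κ → ℂ) := by
      rw [mulVec_blocks X hX]
      funext j
      rcases j with j | j
      · simp [mulVec, dotProduct, toBlocks₁₁]
      · simp
    have k3 : ∀ (c : ℂ) (M : Matrix (Unit ⊕ κ) (Unit ⊕ κ) ℂ) (x : Unit ⊕ κ → ℂ),
        q M (c • x) = star c * q M x * c := by
      intro c M x
      unfold q
      rw [mulVec_smul, star_smul, smul_dotProduct, dotProduct_smul, smul_eq_mul, smul_eq_mul]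
      ring
    have hg : 0 < G (Sum.inl ()) (Sum.inl ()) := by
      rw [← k G]
      refine hG.dotProduct_mulVec_pos fun h0 => ?_
      have := congrFun h0 (Sum.inl ())
      simp at this
    refine size_one _ _ _ hg ?_ ?_
    · have := q_le_of hH (Sum.elim (fun _ => 1) 0)
      rw [k, k] at this
      exact this
    · have := q_le_of hHX (Sum.elim (fun _ => 1) 0)
      rw [q_conj, k2, k3, k, k] at this
      exact this
  have hch : X.charpoly = X.toBlocks₁₁.charpoly * X.toBlocks₂₂.charpoly := by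
    conv_lhs => rw [← fromBlocks_toBlocks X, hX]
    exact charpoly_fromBlocks_zero₂₁ ..
  rw [hch, mahlerMeasure_mul, sc_det hG, sc_det hHd, norm_mul, norm_mul]
  calc _ = (X.toBlocks₁₁.charpoly.mahlerMeasure ^ 2 * ‖G.toBlocks₁₁.det‖) *
        (X.toBlocks₂₂.charpoly.mahlerMeasure ^ 2 * ‖(sc G).det‖) := by ring
    _ ≤ _ := mul_le_mul h1 h2 (by positivity) (norm_nonneg _)

/-- **Weyl's inequality** for the product of the eigenvalues outside the unit disc. -/
theorem weyl : ∀ (n : ℕ) (X G H : Matrix (Fin n) (Fin n) ℂ), G.PosDef → (H - G).PosSemidef →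
    (H - Xᴴ * G * X).PosSemidef → X.charpoly.mahlerMeasure ^ 2 * ‖G.det‖ ≤ ‖H.det‖ := by
  intro n
  induction n with
  | zero =>
    intro X G H _ _ _
    simp [Matrix.charpoly]
  | succ n ih =>
    intro X G H hG hH hHX
    obtain ⟨l, hl⟩ : ∃ l : ℂ, X.charpoly.IsRoot l := by
      refine IsAlgClosed.exists_root _ ?_
      rw [Matrix.charpoly_degree_eq_dim, Fintype.card_fin]
      exact_mod_cast Nat.succ_ne_zero n
    obtain ⟨v, hv0, hv⟩ : ∃ v : Fin (n + 1) → ℂ, v ≠ 0 ∧ X *ᵥ v = l • v := by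
      have h1 : (scalar (Fin (n + 1)) l - X).det = 0 := by
        rw [← eval_charpoly]
        exact hl
      obtain ⟨v, hv, h2⟩ := exists_mulVec_eq_zero_iff.mpr h1
      refine ⟨v, hv, ?_⟩
      rw [sub_mulVec, sub_eq_zero] at h2
      rw [← h2]
      simp
    obtain ⟨i, hi⟩ : ∃ i, v i ≠ 0 := by
      by_contra hcon
      push Not at hcon
      exact hv0 (funext hcon)
    set P : Matrix (Fin (n + 1)) (Fin (n + 1)) ℂ := (1 : Matrix _ _ ℂ).updateCol i v with hP
    have hdet : P.det = v i := by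
      rw [hP, ← cramer_apply, cramer_one]
      rfl
    have hPu : IsUnit P.det := by rw [hdet]; exact isUnit_iff_ne_zero.mpr hi
    have hPi : P *ᵥ (Pi.single i 1) = v := by
      funext j
      simp [hP]
    have hPX : (P⁻¹ * X * P) *ᵥ (Pi.single i 1) = l • (Pi.single i 1 : Fin (n + 1) → ℂ) := by
      rw [← mulVec_mulVec, hPi, ← mulVec_mulVec, hv, mulVec_smul]
      conv_lhs => rw [← hPi, mulVec_mulVec, nonsing_inv_mul _ hPu, one_mulVec]
    set Y := P⁻¹ * X * P with hY
    have hPY : P * Y = X * P := by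
      rw [hY, Matrix.mul_assoc, ← Matrix.mul_assoc, mul_nonsing_inv _ hPu, Matrix.one_mul]
    have hbij : Function.Bijective (Sum.elim (fun _ : Unit => i) i.succAbove) := by
      constructor
      · rintro (a | a) (b | b) h
        · rfl
        · exact absurd h.symm (Fin.succAbove_ne i b)
        · exact absurd h (Fin.succAbove_ne i a)
        · exact congrArg Sum.inr (Fin.succAbove_right_injective h)
      · intro j
        rcases Fin.eq_self_or_eq_succAbove i j with h | ⟨k, h⟩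
        · exact ⟨Sum.inl (), h.symm⟩
        · exact ⟨Sum.inr k, h.symm⟩
    set e : Unit ⊕ Fin n ≃ Fin (n + 1) := Equiv.ofBijective _ hbij with he
    have he1 : e (Sum.inl ()) = i := rfl
    have he2 : ∀ k, e (Sum.inr k) = i.succAbove k := fun _ => rfl
    have hinj : Function.Injective P.mulVec := by
      rw [mulVec_injective_iff_isUnit, isUnit_iff_isUnit_det]
      exact hPu
    have hcol : (Y.submatrix e e).toBlocks₂₁ = 0 := by
      ext a b
      have h1 := congrFun hPX (i.succAbove a)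
      simp only [mulVec_single_one, Pi.smul_apply, Pi.single_apply, Fin.succAbove_ne,
        if_false, smul_zero] at h1
      have h2 : (Y.submatrix e e).toBlocks₂₁ a b = Y (i.succAbove a) i := rfl
      rw [h2]
      exact h1
    have key := step (Y.submatrix e e) ((Pᴴ * G * P).submatrix e e)
      ((Pᴴ * H * P).submatrix e e) hcol
      ((hG.conjTranspose_mul_mul_same hinj).submatrix e.injective) ?_ ?_ ih
    · have hch : (Y.submatrix e e).charpoly = X.charpoly := by
        have h1 : Y.submatrix e e = reindex e.symm e.symm Y := rfl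
        rw [h1, charpoly_reindex, hY, charpoly_mul_comm, ← Matrix.mul_assoc,
          mul_nonsing_inv _ hPu, Matrix.one_mul]
      have hd : ∀ M : Matrix (Fin (n + 1)) (Fin (n + 1)) ℂ,
          ‖((Pᴴ * M * P).submatrix e e).det‖ = ‖P.det‖ ^ 2 * ‖M.det‖ := by
        intro M
        rw [det_submatrix_equiv_self, det_mul, det_mul, det_conjTranspose, norm_mul, norm_mul,
          norm_star]
        ring
      rw [hch, hd, hd] at key
      have hpos : 0 < ‖P.det‖ ^ 2 := by
        rw [hdet]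
        have := norm_pos_iff.mpr hi
        positivity
      have key2 : ‖P.det‖ ^ 2 * (X.charpoly.mahlerMeasure ^ 2 * ‖G.det‖) ≤
          ‖P.det‖ ^ 2 * ‖H.det‖ := by
        calc _ = X.charpoly.mahlerMeasure ^ 2 * (‖P.det‖ ^ 2 * ‖G.det‖) := by ring
          _ ≤ _ := key
      exact le_of_mul_le_mul_left key2 hpos
    · have h1 : (Pᴴ * H * P).submatrix e e - (Pᴴ * G * P).submatrix e e =
          (Pᴴ * (H - G) * P).submatrix e e := by
        rw [Matrix.mul_sub, Matrix.sub_mul]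
        rfl
      rw [h1]
      exact (hH.conjTranspose_mul_mul_same P).submatrix e
    · have h1 : (Pᴴ * H * P).submatrix e e -
          (Y.submatrix e e)ᴴ * (Pᴴ * G * P).submatrix e e * Y.submatrix e e =
          (Pᴴ * (H - Xᴴ * G * X) * P).submatrix e e := by
        rw [conjTranspose_submatrix, submatrix_mul_equiv, submatrix_mul_equiv]
        have h2 : Yᴴ * (Pᴴ * G * P) * Y = Pᴴ * (Xᴴ * G * X) * P := by
          calc Yᴴ * (Pᴴ * G * P) * Y = (P * Y)ᴴ * G * (P * Y) := by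
                rw [conjTranspose_mul P Y]
                simp only [Matrix.mul_assoc]
            _ = _ := by
                rw [hPY, conjTranspose_mul]
                simp only [Matrix.mul_assoc]
        rw [h2, Matrix.mul_sub, Matrix.sub_mul]
        rfl
      rw [h1]
      exact (hHX.conjTranspose_mul_mul_same P).submatrix e

end

end Pool.Agent.Run7.h260.SX
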