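import Mathlib
import Pool.Agent.Run7.h260.SX.Weyl

/-!
# Majorants and rank one updates
-/

set_option autoImplicit false

namespace Pool.Agent.Run7.h260.SX

open Matrix Polynomial ComplexOrder

noncomputable section

variable {n : ℕ}

/-- the square of the Euclidean norm -/
def nsq (x : Fin n → ℂ) : ℝ := ∑ i, ‖x i‖ ^ 2

lemma nsq_nonneg (x : Fin n → ℂ) : 0 ≤ nsq x := Finset.sum_nonneg fun _ _ => by positivity

lemma nsq_eq (x : Fin n → ℂ) : ((nsq x : ℝ) : ℂ) = star x ⬝ᵥ x := by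
  unfold nsq dotProduct
  push_cast
  refine Finset.sum_congr rfl fun i _ => ?_
  rw [Pi.star_apply, show star (x i) = (starRingEnd ℂ) (x i) from rfl, Complex.conj_mul']

lemma q_one (x : Fin n → ℂ) : q (1 : Matrix (Fin n) (Fin n) ℂ) x = ((nsq x : ℝ) : ℂ) := by
  unfold q
  rw [one_mulVec, nsq_eq]

lemma q_gram (X : Matrix (Fin n) (Fin n) ℂ) (x : Fin n → ℂ) :
    q (Xᴴ * X) x = ((nsq (X *ᵥ x) : ℝ) : ℂ) := by
  have h := q_conj (1 : Matrix (Fin n) (Fin n) ℂ) X x
  rw [Matrix.mul_one] at h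
  rw [h, q_one]

lemma cauchy (x y : Fin n → ℂ) : ‖star x ⬝ᵥ y‖ ^ 2 ≤ nsq x * nsq y := by
  have h1 : ‖star x ⬝ᵥ y‖ ≤ ∑ i, ‖x i‖ * ‖y i‖ := by
    unfold dotProduct
    refine (norm_sum_le _ _).trans (Finset.sum_le_sum fun i _ => ?_)
    rw [norm_mul, Pi.star_apply, norm_star]
  have h2 := Finset.sum_mul_sq_le_sq_mul_sq Finset.univ (fun i => ‖x i‖) (fun i => ‖y i‖)
  calc ‖star x ⬝ᵥ y‖ ^ 2 ≤ (∑ i, ‖x i‖ * ‖y i‖) ^ 2 := by gcongr
    _ ≤ _ := h2

/-- real part of the form -/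
def qr (M : Matrix (Fin n) (Fin n) ℂ) (x : Fin n → ℂ) : ℝ := (q M x).re

lemma q_real {M : Matrix (Fin n) (Fin n) ℂ} (h : M.IsHermitian) (x : Fin n → ℂ) :
    q M x = ((qr M x : ℝ) : ℂ) := by
  unfold qr
  have h1 : star (q M x) = q M x := by
    have h2 : q M x = star (M *ᵥ x) ⬝ᵥ x := by
      unfold q
      rw [star_mulVec, h.eq, dotProduct_mulVec]
    conv_rhs => rw [h2, star_dotProduct]
    rfl
  exact (Complex.conj_eq_iff_re.mp h1).symm

lemma psd_of_qr {M N : Matrix (Fin n) (Fin n) ℂ} (hM : M.IsHermitian) (hN : N.IsHermitian)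
    (h : ∀ x, qr N x ≤ qr M x) : (M - N).PosSemidef := by
  refine psd_sub_of hM hN fun x => ?_
  rw [q_real hM, q_real hN]
  exact_mod_cast h x

lemma qr_of_psd {M N : Matrix (Fin n) (Fin n) ℂ} (h : (M - N).PosSemidef) (x : Fin n → ℂ) :
    qr N x ≤ qr M x := (Complex.le_def.mp (q_le_of h x)).1

/-- `H` dominates the identity and `X* X`. -/
structure Maj (H X : Matrix (Fin n) (Fin n) ℂ) : Prop where
  herm : H.IsHermitian
  one : ∀ x, nsq x ≤ qr H x
  mul : ∀ x, nsq (X *ᵥ x) ≤ qr H x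

lemma Maj.psd {H X : Matrix (Fin n) (Fin n) ℂ} (h : Maj H X) :
    (H - 1).PosSemidef := by
  refine psd_of_qr h.herm isHermitian_one fun x => ?_
  have := h.one x
  unfold qr
  rw [q_one]
  exact this

lemma Maj.posDef {H X : Matrix (Fin n) (Fin n) ℂ} (h : Maj H X) : H.PosDef := by
  have : H = 1 + (H - 1) := by abel
  rw [this]
  exact PosDef.one.add_posSemidef h.psd

/-- Weyl's inequality -/
theorem Maj.weyl {H X : Matrix (Fin n) (Fin n) ℂ} (h : Maj H X) :
    X.charpoly.mahlerMeasure ^ 2 ≤ ‖H.det‖ := by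
  have h1 := Pool.Agent.Run7.h260.SX.weyl n X 1 H PosDef.one h.psd (by
    rw [Matrix.mul_one]
    refine psd_of_qr h.herm (isHermitian_conjTranspose_mul_self X) fun x => ?_
    have := h.mul x
    unfold qr
    rw [q_gram]
    exact this)
  simpa using h1

/-- existence of a majorant with the right determinant -/
theorem exists_maj (X : Matrix (Fin n) (Fin n) ℂ) :
    ∃ H : Matrix (Fin n) (Fin n) ℂ, Maj H X ∧ ‖H.det‖ = (Xᴴ * X).charpoly.mahlerMeasure := by
  have hA : (Xᴴ * X).IsHermitian := isHermitian_conjTranspose_mul_self X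
  have hpsd : (Xᴴ * X).PosSemidef := posSemidef_conjTranspose_mul_self X
  set U : Matrix (Fin n) (Fin n) ℂ := (hA.eigenvectorUnitary : Matrix (Fin n) (Fin n) ℂ) with hU
  have hUU : U * star U = 1 := by
    have := hA.eigenvectorUnitary.2
    exact (Matrix.mem_unitaryGroup_iff).mp this
  have hspec : Xᴴ * X = U * diagonal (fun i => (hA.eigenvalues i : ℂ)) * star U := by
    have := hA.spectral_theorem
    rw [Unitary.conjStarAlgAut_apply] at this
    exact this
  set D : Matrix (Fin n) (Fin n) ℂ := diagonal (fun i => ((max 1 (hA.eigenvalues i) : ℝ) : ℂ))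
    with hD
  refine ⟨U * D * star U, ⟨?_, ?_, ?_⟩, ?_⟩
  · have hDh : D.IsHermitian := by
      rw [hD]
      exact isHermitian_diagonal_of_self_adjoint _ (by
        funext i
        exact Complex.conj_ofReal _)
    exact isHermitian_mul_mul_conjTranspose U hDh
  · intro x
    have h1 : (U * D * star U - 1).PosSemidef := by
      have e : U * D * star U - 1 = U * (D - 1) * Uᴴ := by
        rw [Matrix.mul_sub, Matrix.sub_mul, Matrix.mul_one, ← star_eq_conjTranspose, hUU]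
      rw [e]
      refine PosSemidef.mul_mul_conjTranspose_same ?_ U
      rw [hD, ← diagonal_one, diagonal_sub]
      refine PosSemidef.diagonal fun i => ?_
      have : (1 : ℝ) ≤ max 1 (hA.eigenvalues i) := le_max_left _ _
      simp only [Pi.zero_apply]
      rw [← Complex.ofReal_one, ← Complex.ofReal_sub]
      exact_mod_cast sub_nonneg.mpr this
    have := qr_of_psd h1 x
    unfold qr at this
    rw [q_one] at this
    exact this
  · intro x
    have h1 : (U * D * star U - Xᴴ * X).PosSemidef := by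
      rw [hspec]
      have e : U * D * star U - U * diagonal (fun i => (hA.eigenvalues i : ℂ)) * star U =
          U * (D - diagonal (fun i => (hA.eigenvalues i : ℂ))) * Uᴴ := by
        rw [Matrix.mul_sub, Matrix.sub_mul, ← star_eq_conjTranspose U]
      rw [e]
      refine PosSemidef.mul_mul_conjTranspose_same ?_ U
      rw [hD, diagonal_sub]
      refine PosSemidef.diagonal fun i => ?_
      have : hA.eigenvalues i ≤ max 1 (hA.eigenvalues i) := le_max_right _ _
      simp only [Pi.zero_apply]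
      rw [← Complex.ofReal_sub]
      exact_mod_cast sub_nonneg.mpr this
    have := qr_of_psd h1 x
    unfold qr at this
    rw [q_gram] at this
    exact this
  · have h1 : (U * D * star U).det = D.det := by
      rw [det_mul, det_mul, mul_comm, ← mul_assoc, ← det_mul]
      have : star U * U = 1 := by
        have := hA.eigenvectorUnitary.2
        exact (Matrix.mem_unitaryGroup_iff').mp this
      rw [this, det_one, one_mul]
    rw [h1, hD, det_diagonal, norm_prod, hA.charpoly_eq]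
    have h2 : (∏ i, (Polynomial.X - C ((hA.eigenvalues i : ℝ) : ℂ))) =
        (Finset.univ.val.map fun i => (Polynomial.X - C ((hA.eigenvalues i : ℝ) : ℂ))).prod := rfl
    have h3 : (∏ i, (Polynomial.X - C ((hA.eigenvalues i : ℝ) : ℂ))).mahlerMeasure =
        ∏ i, max 1 ‖((hA.eigenvalues i : ℝ) : ℂ)‖ := by
      rw [h2, prod_mahlerMeasure_eq_mahlerMeasure_prod, Multiset.map_map]
      simp only [Function.comp_def, mahlerMeasure_X_sub_C]
      rfl
    refine Eq.trans ?_ h3.symm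
    refine Finset.prod_congr rfl fun i _ => ?_
    rw [Complex.norm_real, Complex.norm_real, Real.norm_of_nonneg (hpsd.eigenvalues_nonneg i),
      Real.norm_of_nonneg (le_trans zero_le_one (le_max_left _ _))]

/-- the rank one matrix `w w*` -/
def rk (w : Fin n → ℂ) : Matrix (Fin n) (Fin n) ℂ := vecMulVec w (star w)

lemma rk_mulVec (w x : Fin n → ℂ) : rk w *ᵥ x = (star w ⬝ᵥ x) • w := by
  unfold rk
  rw [vecMulVec_mulVec]
  simp

lemma rk_q (w x : Fin n → ℂ) : q (rk w) x = ((‖star w ⬝ᵥ x‖ ^ 2 : ℝ) : ℂ) := by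
  unfold q
  rw [rk_mulVec, dotProduct_smul, smul_eq_mul, star_dotProduct x w]
  rw [mul_comm]
  have := Complex.conj_mul' (star w ⬝ᵥ x)
  push_cast
  exact this

lemma rk_herm (w : Fin n → ℂ) : (rk w).IsHermitian := (posSemidef_vecMulVec_self_star w).1

/-- the determinant of a rank one update -/
theorem rank_one {H : Matrix (Fin n) (Fin n) ℂ} (hH : H.PosDef) (w : Fin n → ℂ) (r : ℝ)
    (hr : 0 ≤ r) (h : ∀ x, ‖star w ⬝ᵥ x‖ ^ 2 ≤ r * qr H x) : ‖(H + rk w).det‖ ≤ (1 + r) * ‖H.det‖ := by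
  have hu : IsUnit H.det := by
    have := hH.isUnit
    rwa [isUnit_iff_isUnit_det] at this
  have h1 : H + rk w = H * (1 + replicateCol Unit (H⁻¹ *ᵥ w) * replicateRow Unit (star w)) := by
    rw [Matrix.mul_add, Matrix.mul_one]
    congr 1
    ext i j
    rw [← Matrix.mul_assoc]
    have h2 : (H * replicateCol Unit (H⁻¹ *ᵥ w)) = replicateCol Unit w := by
      ext i' j'
      have h3 : H *ᵥ (H⁻¹ *ᵥ w) = w := by
        rw [mulVec_mulVec, mul_nonsing_inv _ hu, one_mulVec]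
      exact congrFun h3 i'
    rw [h2]
    unfold rk
    simp [vecMulVec, Matrix.mul_apply]
  set y := H⁻¹ *ᵥ w with hy
  have hHy : H *ᵥ y = w := by
    rw [hy, mulVec_mulVec, mul_nonsing_inv _ hu, one_mulVec]
  set t := star w ⬝ᵥ y with ht
  have h2 : q H y = star t := by
    unfold q
    rw [hHy, ht, star_dotProduct]
  have h3 : t = ((qr H y : ℝ) : ℂ) := by
    have h4 := q_real hH.1 y
    rw [h2] at h4
    have h5 := congrArg star h4
    rw [star_star] at h5
    rw [h5]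
    exact Complex.conj_ofReal _
  have h4 : 0 ≤ qr H y := (Complex.le_def.mp (q_nonneg_of hH.posSemidef y)).1
  have h5 : qr H y ≤ r ∨ qr H y = 0 := by
    rcases eq_or_lt_of_le h4 with h6 | h6
    · exact Or.inr h6.symm
    · left
      have h7 := h y
      rw [← ht, h3, Complex.norm_real, Real.norm_of_nonneg h4] at h7
      nlinarith
  rw [h1, det_mul, det_one_add_replicateCol_mul_replicateRow, norm_mul, mul_comm]
  have h7 : star w ⬝ᵥ y = t := rfl
  rw [h7, h3]
  have h8 : ‖(1 : ℂ) + ((qr H y : ℝ) : ℂ)‖ = 1 + qr H y := by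
    rw [← Complex.ofReal_one, ← Complex.ofReal_add, Complex.norm_real,
      Real.norm_of_nonneg (by linarith)]
  rw [h8]
  refine mul_le_mul_of_nonneg_right ?_ (norm_nonneg _)
  rcases h5 with h9 | h9
  · linarith
  · linarith

lemma qr_add (M N : Matrix (Fin n) (Fin n) ℂ) (x : Fin n → ℂ) : qr (M + N) x = qr M x + qr N x := by
  unfold qr q
  rw [add_mulVec, dotProduct_add, Complex.add_re]

lemma qr_rk (w x : Fin n → ℂ) : qr (rk w) x = ‖star w ⬝ᵥ x‖ ^ 2 := by
  unfold qr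
  rw [rk_q, Complex.ofReal_re]

lemma nsq_smul (c : ℂ) (x : Fin n → ℂ) : nsq (c • x) = ‖c‖ ^ 2 * nsq x := by
  unfold nsq
  rw [Finset.mul_sum]
  refine Finset.sum_congr rfl fun i _ => ?_
  rw [Pi.smul_apply, smul_eq_mul, norm_mul, mul_pow]

lemma nsq_add (x y : Fin n → ℂ) : nsq (x + y) = nsq x + 2 * (star x ⬝ᵥ y).re + nsq y := by
  have h1 : ((nsq (x + y) : ℝ) : ℂ) = (nsq x : ℝ) + (star x ⬝ᵥ y + star y ⬝ᵥ x) + (nsq y : ℝ) := by
    rw [nsq_eq, nsq_eq, nsq_eq, star_add, add_dotProduct, dotProduct_add, dotProduct_add]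
    ring
  have h2 : star y ⬝ᵥ x = star (star x ⬝ᵥ y) := star_dotProduct y x
  have h3 := congrArg Complex.re h1
  rw [h2] at h3
  simp only [Complex.add_re, Complex.ofReal_re, Complex.star_def, Complex.conj_re] at h3
  linarith

/-- the rank one matrix `a b*` -/
def ab (a b : Fin n → ℂ) : Matrix (Fin n) (Fin n) ℂ := vecMulVec a (star b)

lemma ab_mulVec (a b x : Fin n → ℂ) : ab a b *ᵥ x = (star b ⬝ᵥ x) • a := by
  unfold ab
  rw [vecMulVec_mulVec]
  simp

/-- perturbation of a majorant -/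
theorem Maj.pert {H X : Matrix (Fin n) (Fin n) ℂ} (hM : Maj H X) (a b : Fin n → ℂ) (κ : ℝ)
    (ha : nsq a ≤ κ) (hb : nsq b ≤ κ) (c : ℂ) (hc : ‖c‖ ≤ 2) :
    ((1 + c • ab a b) * X).charpoly.mahlerMeasure ^ 2 ≤ (1 + 2 * κ) ^ 3 * ‖H.det‖ := by
  have hκ : 0 ≤ κ := (nsq_nonneg a).trans ha
  set s1 : ℝ := √(4 * κ + 2) with hs1
  have hs1' : s1 ^ 2 = 4 * κ + 2 := Real.sq_sqrt (by positivity)
  set s2 : ℝ := √2 with hs2
  have hs2' : s2 ^ 2 = 2 := Real.sq_sqrt (by norm_num)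
  set w1 : Fin n → ℂ := (s1 : ℂ) • (Xᴴ *ᵥ b) with hw1
  set w2 : Fin n → ℂ := (s2 : ℂ) • (Xᴴ *ᵥ a) with hw2
  have e0 : ∀ (v x : Fin n → ℂ), star (Xᴴ *ᵥ v) ⬝ᵥ x = star v ⬝ᵥ (X *ᵥ x) := by
    intro v x
    rw [star_mulVec, conjTranspose_conjTranspose, dotProduct_mulVec]
  have e1 : ∀ x, ‖star w1 ⬝ᵥ x‖ ^ 2 = (4 * κ + 2) * ‖star b ⬝ᵥ (X *ᵥ x)‖ ^ 2 := by
    intro x
    rw [hw1, star_smul, smul_dotProduct, e0, smul_eq_mul, norm_mul, mul_pow, ← hs1', norm_star,
      Complex.norm_real, Real.norm_eq_abs, sq_abs]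
  have e2 : ∀ x, ‖star w2 ⬝ᵥ x‖ ^ 2 = 2 * ‖star a ⬝ᵥ (X *ᵥ x)‖ ^ 2 := by
    intro x
    rw [hw2, star_smul, smul_dotProduct, e0, smul_eq_mul, norm_mul, mul_pow, norm_star,
      Complex.norm_real, Real.norm_eq_abs, sq_abs, hs2']
  have hHd := hM.posDef
  have hb2 : ∀ x, ‖star b ⬝ᵥ (X *ᵥ x)‖ ^ 2 ≤ κ * qr H x := fun x =>
    (cauchy b _).trans (mul_le_mul hb (hM.mul x) (nsq_nonneg _) hκ)
  have ha2 : ∀ x, ‖star a ⬝ᵥ (X *ᵥ x)‖ ^ 2 ≤ κ * qr H x := fun x =>
    (cauchy a _).trans (mul_le_mul ha (hM.mul x) (nsq_nonneg _) hκ)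
  have r1 := rank_one hHd w1 ((4 * κ + 2) * κ) (by positivity) fun x => by
    rw [e1, mul_assoc]
    exact mul_le_mul_of_nonneg_left (hb2 x) (by positivity)
  have hH1d : (H + rk w1).PosDef := hHd.add_posSemidef (posSemidef_vecMulVec_self_star w1)
  have r2 := rank_one hH1d w2 (2 * κ) (by positivity) fun x => by
    rw [e2, qr_add, qr_rk]
    have := ha2 x
    nlinarith [mul_nonneg hκ (sq_nonneg ‖star w1 ⬝ᵥ x‖)]
  have hmaj : Maj (H + rk w1 + rk w2) ((1 + c • ab a b) * X) := by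
    refine ⟨(hM.herm.add (rk_herm _)).add (rk_herm _), fun x => ?_, fun x => ?_⟩
    · rw [qr_add, qr_add, qr_rk, qr_rk]
      have := hM.one x
      nlinarith [sq_nonneg ‖star w1 ⬝ᵥ x‖, sq_nonneg ‖star w2 ⬝ᵥ x‖]
    · rw [qr_add, qr_add, qr_rk, qr_rk, e1, e2]
      set y := X *ᵥ x with hy
      have h1 : ((1 + c • ab a b) * X) *ᵥ x = y + (c * (star b ⬝ᵥ y)) • a := by
        rw [← mulVec_mulVec, add_mulVec, one_mulVec, smul_mulVec, ab_mulVec, smul_smul]
      rw [h1, nsq_add, nsq_smul, dotProduct_smul, smul_eq_mul]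
      have h2 := hM.mul x
      rw [← hy] at h2
      set p := ‖star b ⬝ᵥ y‖ with hp
      set q' := ‖star a ⬝ᵥ y‖ with hq
      have hp0 : 0 ≤ p := norm_nonneg _
      have hq0 : 0 ≤ q' := norm_nonneg _
      have h3 : ‖star y ⬝ᵥ a‖ = q' := by
        rw [star_dotProduct, norm_star]
      have h4 : (c * (star b ⬝ᵥ y) * (star y ⬝ᵥ a)).re ≤ 2 * p * q' := by
        refine (Complex.re_le_norm _).trans ?_
        rw [norm_mul, norm_mul, h3]
        exact mul_le_mul_of_nonneg_right (mul_le_mul_of_nonneg_right hc hp0) hq0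
      have h5 : ‖c * (star b ⬝ᵥ y)‖ ^ 2 * nsq a ≤ 4 * p ^ 2 * κ := by
        rw [norm_mul, mul_pow]
        have h6 : ‖c‖ ^ 2 ≤ 4 := by nlinarith [norm_nonneg c]
        exact mul_le_mul (mul_le_mul_of_nonneg_right h6 (sq_nonneg _)) ha (nsq_nonneg _)
          (by positivity)
      nlinarith [sq_nonneg (p - q')]
  refine hmaj.weyl.trans (r2.trans ?_)
  have h7 : 1 + (4 * κ + 2) * κ ≤ (1 + 2 * κ) ^ 2 := by nlinarith
  calc (1 + 2 * κ) * ‖(H + rk w1).det‖ ≤ (1 + 2 * κ) * ((1 + (4 * κ + 2) * κ) * ‖H.det‖) :=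
        mul_le_mul_of_nonneg_left r1 (by positivity)
    _ ≤ (1 + 2 * κ) * ((1 + 2 * κ) ^ 2 * ‖H.det‖) := by
        refine mul_le_mul_of_nonneg_left (mul_le_mul_of_nonneg_right h7 (norm_nonneg _))
          (by positivity)
    _ = _ := by ring

end

end Pool.Agent.Run7.h260.SX
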