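import Mathlib
import Pool.Agent.Run7.h260.SX.Circ
import Pool.Agent.Run7.h260.SX.Maj

/-!
# Scaling one row of a matrix
-/

set_option autoImplicit false

namespace Pool.Agent.Run7.h260.SX

open MeasureTheory Matrix Polynomial
open Pool.Agent.H261R2.CM (ez D_norm_ez D_continuous_ez)
open Pool.Agent.W242.IM (ae_eval_ne)
open Pool.Agent.Y820.LB (integrable_log log_mahler)

noncomputable section

variable {n : ℕ}

/-- the matrix unit `E_vv` -/
def EU (v : Fin n) : Matrix (Fin n) (Fin n) ℂ := vecMulVec (Pi.single v 1) (Pi.single v 1)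

lemma EU_apply (v i j : Fin n) : EU v i j = if i = v ∧ j = v then 1 else 0 := by
  unfold EU vecMulVec
  simp only [of_apply, Pi.single_apply]
  by_cases h1 : i = v <;> by_cases h2 : j = v <;> simp [h1, h2]

lemma EU_mul (v : Fin n) (B : Matrix (Fin n) (Fin n) ℂ) (i j : Fin n) :
    (EU v * B) i j = if i = v then B v j else 0 := by
  rw [Matrix.mul_apply]
  by_cases h : i = v
  · rw [if_pos h, Finset.sum_eq_single v]
    · rw [EU_apply, if_pos ⟨h, rfl⟩, one_mul]
    · intro k _ hk
      rw [EU_apply, if_neg (fun h' => hk h'.2), zero_mul]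
    · simp
  · rw [if_neg h]
    refine Finset.sum_eq_zero fun k _ => ?_
    rw [EU_apply, if_neg (fun h' => h h'.1), zero_mul]

/-- characteristic polynomial of a matrix with one row multiplied by `c` -/
theorem charpoly_scale (B : Matrix (Fin n) (Fin n) ℂ) (v : Fin n) (c : ℂ) :
    ((1 + (c - 1) • EU v) * B).charpoly =
      C (1 - c) * (X * (charmatrix B).adjugate v v) + C c * B.charpoly := by
  have h1 : charmatrix ((1 + (c - 1) • EU v) * B) =
      updateRow (charmatrix B) v ((C (1 - c) * X) • (Pi.single v 1 : Fin n → ℂ[X]) +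
        (C c) • (charmatrix B v)) := by
    ext1 i j
    rw [charmatrix_apply, Matrix.add_mul, Matrix.one_mul, Matrix.smul_mul, Matrix.add_apply,
      Matrix.smul_apply, EU_mul, updateRow_apply]
    by_cases h : i = v
    · subst h
      rw [if_pos rfl, if_pos rfl]
      simp only [Pi.add_apply, Pi.smul_apply, smul_eq_mul, charmatrix_apply, Pi.single_apply,
        diagonal_apply]
      by_cases h2 : i = j
      · subst h2
        simp only [if_true, C_add, C_sub, C_mul, C_1]
        ring
      · rw [if_neg h2, if_neg (fun h' => h2 h'.symm)]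
        simp only [C_add, C_sub, C_mul, C_1]
        ring
    · rw [if_neg h, if_neg h, smul_zero, add_zero, charmatrix_apply]
  have h2 : updateRow (charmatrix B) v (charmatrix B v) = charmatrix B := updateRow_eq_self _ _
  unfold Matrix.charpoly
  rw [h1, det_updateRow_add, det_updateRow_smul, det_updateRow_smul, h2, adjugate_apply]
  ring

/-- similarity -/
theorem charpoly_sim (S T Z : Matrix (Fin n) (Fin n) ℂ) (h : S * T = 1) :
    (S * Z * T).charpoly = Z.charpoly := by
  have h' : T * S = 1 := mul_eq_one_comm.mp h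
  rw [charpoly_mul_comm, ← Matrix.mul_assoc, h', Matrix.one_mul]

theorem scale_sim (B S T : Matrix (Fin n) (Fin n) ℂ) (h : S * T = 1) (v : Fin n) (s : ℝ)
    (hs : s ≠ 0) (c : ℂ) :
    ((1 + (c - 1) • EU v) * B).charpoly =
      ((1 + (c - 1) • ab ((s : ℂ) • fun j => T j v) ((s⁻¹ : ℂ) • star (S v))) *
        (T * B * S)).charpoly := by
  have h' : T * S = 1 := mul_eq_one_comm.mp h
  have h1 : S * ab ((s : ℂ) • fun j => T j v) ((s⁻¹ : ℂ) • star (S v)) * T = EU v := by
    have h2 : ab ((s : ℂ) • fun j => T j v) ((s⁻¹ : ℂ) • star (S v)) =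
        vecMulVec (fun j => T j v) (S v) := by
      unfold ab
      ext i j
      have hs' : (s : ℂ) ≠ 0 := by exact_mod_cast hs
      simp only [vecMulVec_apply, Pi.smul_apply, smul_eq_mul, Pi.star_apply, star_mul', star_star]
      have h3 : star ((s : ℂ)⁻¹) = (s : ℂ)⁻¹ := by
        rw [← Complex.ofReal_inv]
        exact Complex.conj_ofReal _
      rw [h3]
      field_simp
    rw [h2, mul_vecMulVec, vecMulVec_mul]
    have h3 : S *ᵥ (fun j => T j v) = Pi.single v 1 := by
      funext i
      have := congrFun (congrFun h i) v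
      rw [Matrix.mul_apply] at this
      simp only [mulVec, dotProduct]
      rw [this, Matrix.one_apply, Pi.single_apply]
    have h4 : S v ᵥ* T = Pi.single v 1 := by
      funext i
      have := congrFun (congrFun h v) i
      rw [Matrix.mul_apply] at this
      simp only [vecMul, dotProduct]
      rw [this, Matrix.one_apply, Pi.single_apply]
      simp only [eq_comm]
    rw [h3, h4]
    rfl
  rw [← charpoly_sim S T ((1 + (c - 1) • ab ((s : ℂ) • fun j => T j v)
    ((s⁻¹ : ℂ) • star (S v))) * (T * B * S)) h]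
  congr 1
  set Z := ab ((s : ℂ) • fun j => T j v) ((s⁻¹ : ℂ) • star (S v)) with hZ
  have h5 : S * ((1 + (c - 1) • Z) * (T * B * S)) * T =
      (S * T + (c - 1) • (S * Z * T)) * B * (S * T) := by
    simp only [Matrix.add_mul, Matrix.mul_add, Matrix.one_mul, Matrix.smul_mul, Matrix.mul_smul,
      Matrix.mul_assoc]
  rw [h5, h1, h, Matrix.mul_one]

/-- The quantity `(∑ |S_vj|²)(∑ |T_jv|²)`. -/
def cnd (S T : Matrix (Fin n) (Fin n) ℂ) (v : Fin n) : ℝ :=
  √((∑ j, ‖S v j‖ ^ 2) * ∑ j, ‖T j v‖ ^ 2)

/-- the height of the characteristic polynomial and a diagonal minor -/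
theorem height_minor (B S T : Matrix (Fin n) (Fin n) ℂ) (h : S * T = 1) (v : Fin n) :
    IntervalIntegrable (fun t => Real.log (max ‖B.charpoly.eval (ez t)‖
      ‖((charmatrix B).adjugate v v).eval (ez t)‖)) volume 0 1 ∧
    ∫ t in (0:ℝ)..1, Real.log (max ‖B.charpoly.eval (ez t)‖
      ‖((charmatrix B).adjugate v v).eval (ez t)‖) ≤
    Real.log 2 + (3 * Real.log (1 + 2 * cnd S T v) +
      Real.log ((T * B * S)ᴴ * (T * B * S)).charpoly.mahlerMeasure) / 2 := by
  set Y := T * B * S with hY
  obtain ⟨H, hM, hdet⟩ := exists_maj Y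
  set κ := cnd S T v with hκdef
  have hκ0 : 0 ≤ κ := Real.sqrt_nonneg _
  -- the vectors
  set α : ℝ := ∑ j, ‖T j v‖ ^ 2 with hα
  set β : ℝ := ∑ j, ‖S v j‖ ^ 2 with hβ
  have hST : ∑ j, S v j * T j v = 1 := by
    have := congrFun (congrFun h v) v
    rw [Matrix.mul_apply, Matrix.one_apply_eq] at this
    exact this
  have hα0 : 0 < α := by
    rw [hα]
    by_contra hcon
    have h0 : ∀ j, T j v = 0 := by
      intro j
      have h1 : ∑ j, ‖T j v‖ ^ 2 = 0 := le_antisymm (not_lt.mp hcon) (Finset.sum_nonneg fun _ _ => by positivity)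
      have h2 := (Finset.sum_eq_zero_iff_of_nonneg (fun _ _ => by positivity)).mp h1 j
        (Finset.mem_univ j)
      simpa using h2
    simp [h0] at hST
  have hβ0 : 0 < β := by
    rw [hβ]
    by_contra hcon
    have h0 : ∀ j, S v j = 0 := by
      intro j
      have h1 : ∑ j, ‖S v j‖ ^ 2 = 0 := le_antisymm (not_lt.mp hcon) (Finset.sum_nonneg fun _ _ => by positivity)
      have h2 := (Finset.sum_eq_zero_iff_of_nonneg (fun _ _ => by positivity)).mp h1 j
        (Finset.mem_univ j)
      simpa using h2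
    simp [h0] at hST
  set s : ℝ := √(√(β / α)) with hs
  have hs0 : 0 < s := Real.sqrt_pos.mpr (Real.sqrt_pos.mpr (by positivity))
  have hs2 : s ^ 2 = √(β / α) := Real.sq_sqrt (Real.sqrt_nonneg _)
  have hκ : κ = √(β * α) := rfl
  have k1 : s ^ 2 * α = κ := by
    rw [hs2, hκ, Real.sqrt_div hβ0.le, Real.sqrt_mul hβ0.le]
    have h1 : √α ≠ 0 := (Real.sqrt_pos.mpr hα0).ne'
    have h2 : α = √α * √α := (Real.mul_self_sqrt hα0.le).symm
    field_simp
    nlinarith
  have k2 : (s⁻¹) ^ 2 * β = κ := by
    rw [inv_pow, hs2, hκ, Real.sqrt_div hβ0.le, Real.sqrt_mul hβ0.le]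
    have h1 : √α ≠ 0 := (Real.sqrt_pos.mpr hα0).ne'
    have h3 : √β ≠ 0 := (Real.sqrt_pos.mpr hβ0).ne'
    have h2 : β = √β * √β := (Real.mul_self_sqrt hβ0.le).symm
    rw [inv_div]
    field_simp
    nlinarith
  set a : Fin n → ℂ := (s : ℂ) • fun j => T j v with ha
  set b : Fin n → ℂ := (s⁻¹ : ℂ) • star (S v) with hb
  have hna : nsq a ≤ κ := by
    rw [ha, nsq_smul, Complex.norm_real, Real.norm_of_nonneg hs0.le]
    exact le_of_eq k1
  have hnb : nsq b ≤ κ := by
    have h1 : nsq (star (S v)) = β := by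
      unfold nsq
      rw [hβ]
      refine Finset.sum_congr rfl fun j _ => ?_
      rw [Pi.star_apply, norm_star]
    rw [hb, nsq_smul, h1, norm_inv, Complex.norm_real, Real.norm_of_nonneg hs0.le]
    exact le_of_eq k2
  set K' : ℝ := (3 * Real.log (1 + 2 * κ) + Real.log (Yᴴ * Y).charpoly.mahlerMeasure) / 2 with hK'
  set R : ℂ[X] := (charmatrix B).adjugate v v with hR
  have hpos1 : 0 < 1 + 2 * κ := by linarith
  have hdetpos : 0 < ‖H.det‖ := by
    have := hM.weyl
    have h2 : (1 : ℝ) ≤ Y.charpoly.mahlerMeasure :=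
      one_le_mahlerMeasure_of_one_le_norm_leadingCoeff (by
        rw [(charpoly_monic Y).leadingCoeff, norm_one])
    nlinarith
  have key := height_circle (X * R) (B.charpoly - X * R) K' (fun c hc => by
    have e1 : X * R + C c * (B.charpoly - X * R) = ((1 + (c - 1) • EU v) * B).charpoly := by
      rw [charpoly_scale, C_sub, C_1, ← hR]
      ring
    have e2 : ‖c - 1‖ ≤ 2 := by
      refine (norm_sub_le _ _).trans ?_
      rw [hc, norm_one]
      norm_num
    have e3 := hM.pert a b κ hna hnb (c - 1) e2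
    rw [← scale_sim B S T h v s hs0.ne' c] at e3
    have e4 : (1 : ℝ) ≤ ((1 + (c - 1) • EU v) * B).charpoly.mahlerMeasure :=
      one_le_mahlerMeasure_of_one_le_norm_leadingCoeff (by
        rw [(charpoly_monic _).leadingCoeff, norm_one])
    rw [e1]
    refine ⟨e4, ?_⟩
    have e5 := Real.log_le_log (by positivity) e3
    rw [Real.log_pow, Real.log_mul (by positivity) hdetpos.ne', Real.log_pow, hdet] at e5
    push_cast at e5
    rw [hK']
    linarith)
  have hBne : B.charpoly ≠ 0 := (charpoly_monic B).ne_zero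
  have hpt : ∀ᵐ t : ℝ, 0 < ‖B.charpoly.eval (ez t)‖ ∧
      Real.log (max ‖B.charpoly.eval (ez t)‖ ‖R.eval (ez t)‖) ≤ Real.log 2 +
        Real.log (max ‖(X * R).eval (ez t)‖ ‖(B.charpoly - X * R).eval (ez t)‖) := by
    filter_upwards [ae_eval_ne _ hBne] with t ht
    have h1 : 0 < ‖B.charpoly.eval (ez t)‖ := norm_pos_iff.mpr ht
    refine ⟨h1, ?_⟩
    have h2 : ‖(X * R).eval (ez t)‖ = ‖R.eval (ez t)‖ := by
      rw [eval_mul, eval_X, norm_mul, D_norm_ez, one_mul]
    have h3 : ‖B.charpoly.eval (ez t)‖ ≤ ‖(X * R).eval (ez t)‖ +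
        ‖(B.charpoly - X * R).eval (ez t)‖ := by
      have := norm_add_le ((X * R).eval (ez t)) ((B.charpoly - X * R).eval (ez t))
      rw [← eval_add] at this
      simpa using this
    set u := ‖(X * R).eval (ez t)‖ with hu
    set w := ‖(B.charpoly - X * R).eval (ez t)‖ with hw
    have h4 : 0 < max u w := by
      rcases le_total u w with h5 | h5
      · rw [max_eq_right h5]; linarith
      · rw [max_eq_left h5]; linarith
    rw [← Real.log_mul (by norm_num) h4.ne']
    refine Real.log_le_log (lt_max_of_lt_left h1) ?_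
    rw [← h2]
    have h5 := le_max_left u w
    have h6 := le_max_right u w
    exact max_le (by linarith) (by linarith)
  have hint2 : IntervalIntegrable (fun t => Real.log 2 +
      Real.log (max ‖(X * R).eval (ez t)‖ ‖(B.charpoly - X * R).eval (ez t)‖)) volume 0 1 :=
    intervalIntegrable_const.add key.1
  have hint1 : IntervalIntegrable (fun t => Real.log (max ‖B.charpoly.eval (ez t)‖
      ‖R.eval (ez t)‖)) volume 0 1 := by
    have hbnd := (integrable_log B.charpoly).abs.add hint2.abs
    refine hbnd.mono_fun ?_ ?_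
    · have hc1 : Continuous fun t => B.charpoly.eval (ez t) :=
        B.charpoly.continuous.comp D_continuous_ez
      have hc2 : Continuous fun t => R.eval (ez t) := R.continuous.comp D_continuous_ez
      exact (Real.measurable_log.comp (hc1.norm.max hc2.norm).measurable).aestronglyMeasurable
    · filter_upwards [ae_restrict_of_ae hpt] with t ht
      have h1 : Real.log ‖B.charpoly.eval (ez t)‖ ≤
          Real.log (max ‖B.charpoly.eval (ez t)‖ ‖R.eval (ez t)‖) :=
        Real.log_le_log ht.1 (le_max_left _ _)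
      have h2 := ht.2
      have h3 := neg_abs_le (Real.log ‖B.charpoly.eval (ez t)‖)
      have h4 := le_abs_self (Real.log 2 + Real.log (max ‖(X * R).eval (ez t)‖
        ‖(B.charpoly - X * R).eval (ez t)‖))
      have h5 := abs_nonneg (Real.log ‖B.charpoly.eval (ez t)‖)
      have h6 := abs_nonneg (Real.log 2 + Real.log (max ‖(X * R).eval (ez t)‖
        ‖(B.charpoly - X * R).eval (ez t)‖))
      rw [Real.norm_eq_abs, Real.norm_eq_abs, abs_of_nonneg (add_nonneg h5 h6), abs_le]
      constructor <;> linarith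
  refine ⟨hint1, ?_⟩
  have h1 := intervalIntegral.integral_mono_ae zero_le_one hint1 hint2
    (hpt.mono fun t ht => ht.2)
  rw [intervalIntegral.integral_add intervalIntegrable_const key.1,
    intervalIntegral.integral_const] at h1
  simp only [sub_zero, one_smul] at h1
  linarith [key.2]

end

end Pool.Agent.Run7.h260.SX
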