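import Mathlib
import Pool.Agent.Run7.h260.SX.Pen
import Pool.Agent.W110.PF.F

/-!
# Matrices with bounded product of the large singular values: the resolvent on the unit circle
-/

set_option autoImplicit false

namespace Pool.Agent.Run7.h260.SX

open MeasureTheory Matrix Polynomial
open Pool.Agent.H261R2.CM (ez toC D_norm_ez D_continuous_ez)
open Pool.Agent.W242.IM (ae_eval_ne)
open Pool.Agent.Y820.LB (integrable_log log_mahler Dom)
open Pool.Agent.W110.PF (PB Dm)

noncomputable section

variable {n : ℕ}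

lemma Dm_eq (A : Matrix (Fin n) (Fin n) ℂ) (z : ℂ) :
    Dm Polynomial.X 0 A z = (evalRingHom z).mapMatrix (charmatrix A) := by
  unfold Dm
  ext i j
  have h1 : (toC Polynomial.X).eval z = z := by simp [toC]
  rw [h1]
  simp only [pow_zero, one_smul, Matrix.sub_apply, Matrix.smul_apply, smul_eq_mul,
    RingHom.mapMatrix_apply, Matrix.map_apply, charmatrix_apply, coe_evalRingHom, eval_sub, eval_C,
    Matrix.one_apply, diagonal_apply]
  by_cases h : i = j
  · simp [h]
  · simp [h]

lemma Dm_det (A : Matrix (Fin n) (Fin n) ℂ) (z : ℂ) :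
    (Dm Polynomial.X 0 A z).det = A.charpoly.eval z := by
  rw [Dm_eq, ← RingHom.map_det]
  rfl

lemma Dm_adj (A : Matrix (Fin n) (Fin n) ℂ) (z : ℂ) (i : Fin n) :
    (Dm Polynomial.X 0 A z).adjugate i i = ((charmatrix A).adjugate i i).eval z := by
  rw [Dm_eq, ← RingHom.map_adjugate]
  rfl

theorem PB_excess (A S T : Matrix (Fin n) (Fin n) ℂ) (h : S * T = 1) (i : Fin n) (r : ℝ)
    (hr : 0 ≤ r) (h1 : cnd S T i ≤ r)
    (h2 : ((T * A * S)ᴴ * (T * A * S)).charpoly.mahlerMeasure ≤ (1 + r) ^ 2) :
    PB Polynomial.X 0 A i (4 * Real.log 2 + 9 * Real.log (1 + r)) := by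
  set R : ℂ[X] := (charmatrix A).adjugate i i with hR
  set F : ℂ[X] := A.charpoly with hF
  have hFm : F.Monic := charpoly_monic A
  have hne := ae_eval_ne F hFm.ne_zero
  obtain ⟨k1, k2⟩ := height_minor A S T h i
  have hM1 : 0 ≤ Real.log F.mahlerMeasure := Real.log_nonneg
    (one_le_mahlerMeasure_of_one_le_norm_leadingCoeff (by rw [hFm.leadingCoeff, norm_one]))
  refine ⟨fun s => R.eval (ez s) / F.eval (ez s),
    ⟨fun s => Real.log 2 + Real.log (max ‖F.eval (ez s)‖ ‖R.eval (ez s)‖) -
      Real.log ‖F.eval (ez s)‖, ?_, ?_, ?_⟩, ?_⟩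
  · exact (intervalIntegrable_const.add k1).sub (integrable_log F)
  · filter_upwards [hne] with s hs
    have e1 : 0 < ‖F.eval (ez s)‖ := norm_pos_iff.mpr hs
    refine ⟨norm_nonneg _, ?_⟩
    have e2 : 0 < max ‖F.eval (ez s)‖ ‖R.eval (ez s)‖ := lt_max_of_lt_left e1
    rw [← Real.log_mul (by norm_num) e2.ne', ← Real.log_div (by positivity) e1.ne', norm_div]
    refine Real.log_le_log (by positivity) ?_
    rw [le_div_iff₀ e1, add_mul, div_mul_cancel₀ _ e1.ne', one_mul]
    have e3 := le_max_left ‖F.eval (ez s)‖ ‖R.eval (ez s)‖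
    have e4 := le_max_right ‖F.eval (ez s)‖ ‖R.eval (ez s)‖
    linarith
  · rw [intervalIntegral.integral_sub (intervalIntegrable_const.add k1) (integrable_log F),
      intervalIntegral.integral_add intervalIntegrable_const k1, ← log_mahler,
      intervalIntegral.integral_const]
    simp only [sub_zero, one_smul]
    have e0 : 0 ≤ cnd S T i := Real.sqrt_nonneg _
    have e1 : Real.log (1 + 2 * cnd S T i) ≤ Real.log 2 + Real.log (1 + r) := by
      rw [← Real.log_mul (by norm_num) (by linarith)]
      exact Real.log_le_log (by linarith) (by linarith)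
    have e2 : Real.log ((T * A * S)ᴴ * (T * A * S)).charpoly.mahlerMeasure ≤
        2 * Real.log (1 + r) := by
      have e3 := Real.log_le_log (mahlerMeasure_pos_of_ne_zero (charpoly_monic _).ne_zero) h2
      rw [Real.log_pow] at e3
      push_cast at e3
      exact e3
    have e3 : 0 ≤ Real.log (1 + r) := Real.log_nonneg (by linarith)
    have e4 : 0 ≤ Real.log 2 := Real.log_nonneg (by norm_num)
    linarith
  · filter_upwards [hne] with s hs
    rw [Dm_det, Dm_adj, ← hF, ← hR, mul_div_cancel₀ _ hs]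

end

end Pool.Agent.Run7.h260.SX
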