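import Mathlib
import Pool.Agent.Run7.h260.SX.Pen
import Pool.Agent.Y820.LB.Pairs
import Pool.Agent.Y820.LB.Avg
import Pool.Agent.R328.PH
import Pool.Agent.H558R2.FL

/-!
# Integer matrices
-/

set_option autoImplicit false

namespace Pool.Agent.Run7.h260.SX

open MeasureTheory Matrix Polynomial
open Pool.Agent.H261R2.CM
open Pool.Agent.Y820.LB (m1_mul one_le_m1 toC_mul m1_cases m1_gt_of_root minor_one pencil_one)

noncomputable section

/-- A pair of bounded height such that `Q` cancels a zero of `P` outside the unit circle only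
partially. -/
theorem pair_gap_height (K : ℝ) : ∃ c : ℝ, 1 < c ∧ ∀ (P Q : ℤ[X]), P ≠ 0 → mx1 P Q ≤ K →
    ∀ (z : ℂ) (r : ℕ), 1 < ‖z‖ →
    (X - C z) ^ r ∣ toC P → ¬ (X - C z) ^ r ∣ toC Q → c ≤ m1 P := by
  obtain ⟨c, hc, h⟩ := gap_one K
  refine ⟨c, hc, fun P Q hP hK z r hz1 hPr hQr => ?_⟩
  have hQ : Q ≠ 0 := by
    rintro rfl
    apply hQr
    simp [toC]
  obtain ⟨A, B, d, hAB, hA, hB⟩ :=
    UniqueFactorizationMonoid.exists_reduced_factors P hP Q
  have hd0 : d ≠ 0 := by
    rintro rfl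
    exact hP (by rw [← hA, zero_mul])
  have h4 : A ≠ 0 := by
    rintro rfl
    exact hP (by rw [← hA, mul_zero])
  have h5 : B ≠ 0 := by
    rintro rfl
    exact hQ (by rw [← hB, mul_zero])
  have hA0 : (toC A).eval z = 0 := by
    by_contra h9
    apply hQr
    have h11 : (X - C z) ^ r ∣ toC d * toC A := by
      rw [← toC_mul, hA]
      exact hPr
    have h13 : IsCoprime ((X - C z) ^ r) (toC A) := by
      refine IsCoprime.pow_left ?_
      exact (EuclideanDomain.dvd_or_coprime _ _ (irreducible_X_sub_C z)).resolve_left fun h14 =>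
        h9 (dvd_iff_isRoot.mp h14)
    rw [← hB, toC_mul]
    exact (h13.dvd_of_dvd_mul_right h11).mul_right _
  have h9 := m1_gt_of_root A h4 z hA0 hz1
  have h7 : mx1 P Q = Real.log (m1 d) + mx1 A B := by
    rw [← hA, ← hB]
    exact mx1_mul d A B hd0 h4
  have h8 : 0 ≤ Real.log (m1 d) := Real.log_nonneg (one_le_m1 hd0)
  rcases h A B h4 h5 hAB (by linarith) with h10 | h10
  · exact absurd h10 h9.ne'
  · rw [← hA, m1_mul]
    nlinarith [one_le_m1 hd0]

variable {n : ℕ}

/-- the complex matrix -/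
def cm (A : Matrix (Fin n) (Fin n) ℤ) : Matrix (Fin n) (Fin n) ℂ := A.map (Int.castRingHom ℂ)

/-- the diagonal minors of the characteristic matrix -/
def mn (A : Matrix (Fin n) (Fin n) ℤ) (v : Fin n) : ℤ[X] := (charmatrix A).adjugate v v

lemma toC_charpoly (A : Matrix (Fin n) (Fin n) ℤ) : toC A.charpoly = (cm A).charpoly := by
  unfold toC cm
  rw [Matrix.charpoly_map]

lemma toC_mn (A : Matrix (Fin n) (Fin n) ℤ) (v : Fin n) :
    toC (mn A v) = (charmatrix (cm A)).adjugate v v := by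
  have h1 : charmatrix (cm A) = (mapRingHom (Int.castRingHom ℂ)).mapMatrix (charmatrix A) := by
    unfold cm
    rw [charmatrix_map]
    rfl
  rw [h1, ← RingHom.map_adjugate]
  rfl

lemma height_int (A : Matrix (Fin n) (Fin n) ℤ) (S T : Matrix (Fin n) (Fin n) ℂ) (h : S * T = 1)
    (v : Fin n) : mx1 A.charpoly (mn A v) ≤
    Real.log 2 + (3 * Real.log (1 + 2 * cnd S T v) +
      Real.log ((T * cm A * S)ᴴ * (T * cm A * S)).charpoly.mahlerMeasure) / 2 := by
  have h1 := (height_minor (cm A) S T h v).2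
  rw [← toC_charpoly, ← toC_mn] at h1
  exact h1

/-- a diagonal minor that does not cancel a given zero -/
lemma exists_minor (A : Matrix (Fin n) (Fin n) ℤ) (z : ℂ) (hz : (toC A.charpoly).eval z = 0) :
    ∃ (r : ℕ) (v : Fin n), (X - C z) ^ r ∣ toC A.charpoly ∧ ¬ (X - C z) ^ r ∣ toC (mn A v) := by
  set P := toC A.charpoly with hP
  have hP0 : P ≠ 0 := D_toC_ne _ (charpoly_monic A).ne_zero
  set r := P.rootMultiplicity z with hr
  have hr1 : 1 ≤ r := (rootMultiplicity_pos hP0).mpr hz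
  have hd : derivative P = ∑ v, toC (mn A v) := by
    rw [hP]
    unfold toC
    rw [derivative_map, Pool.Agent.H558R2.derivative_charpoly, Matrix.trace, Polynomial.map_sum]
    rfl
  have hd0 : derivative P ≠ 0 := by
    intro h0
    have h1 := natDegree_eq_zero_of_derivative_eq_zero h0
    have h2 : P.degree ≤ 0 := natDegree_eq_zero_iff_degree_le_zero.mp h1
    rw [eq_C_of_degree_le_zero h2, eval_C] at hz
    rw [eq_C_of_degree_le_zero h2, hz, C_0] at hP0
    exact hP0 rfl
  have hnd : ¬ (X - C z) ^ r ∣ derivative P := by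
    intro h1
    have h2 := (le_rootMultiplicity_iff hd0).mpr h1
    rw [derivative_rootMultiplicity_of_root hz] at h2
    omega
  by_contra hcon
  push Not at hcon
  apply hnd
  rw [hd]
  exact Finset.dvd_sum fun v _ => hcon r v (pow_rootMultiplicity_dvd P z)

/-- **The gap.** -/
theorem matrix_gap (K : ℝ) : ∃ c : ℝ, 1 < c ∧ ∀ (n : ℕ) (A : Matrix (Fin n) (Fin n) ℤ)
    (S T : Matrix (Fin n) (Fin n) ℂ), S * T = 1 →
    ((T * cm A * S)ᴴ * (T * cm A * S)).charpoly.mahlerMeasure ≤ K → (∀ v, cnd S T v ≤ K) →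
    m1 A.charpoly = 1 ∨ c ≤ m1 A.charpoly := by
  obtain ⟨c, hc, h⟩ := pair_gap_height (Real.log 2 + (3 * Real.log (1 + 2 * K) + Real.log K) / 2)
  refine ⟨min 2 c, lt_min (by norm_num) hc, fun n A S T hST h1 h2 => ?_⟩
  by_cases hM : m1 A.charpoly = 1
  · exact Or.inl hM
  right
  rcases m1_cases _ (charpoly_monic A).ne_zero hM with h3 | ⟨z, hz, hz1⟩
  · exact (min_le_left _ _).trans h3
  obtain ⟨r, v, h4, h5⟩ := exists_minor A z hz
  refine (min_le_right _ _).trans (h A.charpoly (mn A v) (charpoly_monic A).ne_zero ?_ z r hz1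
    h4 h5)
  refine (height_int A S T hST v).trans ?_
  have h6 : 0 ≤ cnd S T v := Real.sqrt_nonneg _
  have h7 : Real.log (1 + 2 * cnd S T v) ≤ Real.log (1 + 2 * K) :=
    Real.log_le_log (by linarith) (by linarith [h2 v])
  have h8 : Real.log ((T * cm A * S)ᴴ * (T * cm A * S)).charpoly.mahlerMeasure ≤ Real.log K := by
    refine Real.log_le_log ?_ h1
    exact mahlerMeasure_pos_of_ne_zero (charpoly_monic _).ne_zero
  linarith

lemma mn_facts (A : Matrix (Fin n) (Fin n) ℤ) (v : Fin n) :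
    mn A v ≠ 0 ∧ (mn A v).natDegree < n := by
  have h1 : mn A v = Pool.Agent.Y820.LB.minor X 0 A v := by
    unfold Pool.Agent.Y820.LB.minor mn
    rw [pencil_one]
  rw [h1]
  exact minor_one A v

/-- **The explicit bound for irreducible characteristic polynomials.** -/
theorem matrix_irr : ∃ c : ℝ, 0 < c ∧ ∀ (n : ℕ) (A : Matrix (Fin n) (Fin n) ℤ),
    Irreducible A.charpoly → 1 < m1 A.charpoly → ∀ (S T : Matrix (Fin n) (Fin n) ℂ), S * T = 1 →
    ∀ v : Fin n, c / (1 + Real.log (1 + cnd S T v) +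
      Real.log ((T * cm A * S)ᴴ * (T * cm A * S)).charpoly.mahlerMeasure) ^ 3 ≤
      Real.log (m1 A.charpoly) := by
  obtain ⟨c, hc, h⟩ := Pool.Agent.R328.pair_main
  refine ⟨c / 512, by positivity, fun n A hirr hM S T hST v => ?_⟩
  obtain ⟨hm0, hmd⟩ := mn_facts A v
  have hdeg : A.charpoly.natDegree = n := by
    rw [charpoly_natDegree_eq_dim, Fintype.card_fin]
  have hnd : ¬ A.charpoly ∣ mn A v := by
    intro h1
    have h2 := natDegree_le_of_dvd h1 hm0
    rw [hdeg] at h2
    omega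
  have h1 := h A.charpoly (mn A v) 1 one_pos hirr hnd hM
  have h2 : Real.circleAverage (Pool.Agent.R328.PM A.charpoly (mn A v) 1) 0 1 =
      mx1 A.charpoly (mn A v) := by
    rw [D_circleAverage]
    unfold mx1 Pool.Agent.R328.PM
    refine intervalIntegral.integral_congr fun t _ => ?_
    have h3 : ∀ P : ℤ[X], ‖aeval (ez t) P‖ = ‖ev1 P t‖ := by
      intro P
      unfold ev1 toC
      rw [Polynomial.aeval_def, Polynomial.eval_map]
      rfl
    simp only [pow_one, h3]
  have h3 : 0 ≤ Real.circleAverage (Pool.Agent.R328.PM A.charpoly (mn A v) 1) 0 1 :=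
    Pool.Agent.R328.PM_nonneg hirr.ne_zero hM.le (mn A v) 1
  rw [h2] at h1 h3
  have h4 := height_int A S T hST v
  set σ := ((T * cm A * S)ᴴ * (T * cm A * S)).charpoly.mahlerMeasure with hσ
  have hσ1 : 1 ≤ σ := one_le_mahlerMeasure_of_one_le_norm_leadingCoeff (by
    rw [(charpoly_monic _).leadingCoeff, norm_one])
  have hlσ : 0 ≤ Real.log σ := Real.log_nonneg hσ1
  set κ := cnd S T v with hκ
  have hκ0 : 0 ≤ κ := Real.sqrt_nonneg _
  have hlκ : 0 ≤ Real.log (1 + κ) := Real.log_nonneg (by linarith)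
  have h5 : Real.log (1 + 2 * κ) ≤ Real.log 2 + Real.log (1 + κ) := by
    rw [← Real.log_mul (by norm_num) (by linarith)]
    exact Real.log_le_log (by linarith) (by linarith)
  have hl2 : Real.log 2 ≤ 1 := by
    have := Real.log_two_lt_d9
    linarith
  have h6 : 1 + mx1 A.charpoly (mn A v) ≤ 4 * (1 + Real.log (1 + κ) + Real.log σ) := by
    linarith
  have h7 : ((mn A v).natDegree : ℝ) / ((1 : ℕ) * (A.charpoly.natDegree : ℝ)) ≤ 1 := by
    rw [hdeg]
    push_cast
    rw [one_mul]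
    have h8 : ((mn A v).natDegree : ℝ) ≤ n := by exact_mod_cast hmd.le
    exact div_le_one_of_le₀ h8 (Nat.cast_nonneg _)
  have h8 : 0 ≤ ((mn A v).natDegree : ℝ) / ((1 : ℕ) * (A.charpoly.natDegree : ℝ)) := by positivity
  refine le_trans ?_ h1
  set W := 1 + Real.log (1 + κ) + Real.log σ with hW
  have hW1 : 1 ≤ W := by linarith
  have h9 : (1 + ((mn A v).natDegree : ℝ) / ((1 : ℕ) * (A.charpoly.natDegree : ℝ))) *
      (1 + mx1 A.charpoly (mn A v) / (1 : ℕ)) ≤ 8 * W := by
    have h10 : mx1 A.charpoly (mn A v) / ((1 : ℕ) : ℝ) = mx1 A.charpoly (mn A v) := by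
      push_cast
      rw [div_one]
    rw [h10]
    calc _ ≤ 2 * (4 * W) := mul_le_mul (by linarith) h6 (by linarith) (by norm_num)
      _ = _ := by ring
  have h11 : 0 < (1 + ((mn A v).natDegree : ℝ) / ((1 : ℕ) * (A.charpoly.natDegree : ℝ))) *
      (1 + mx1 A.charpoly (mn A v) / (1 : ℕ)) := by
    have h12 : 0 ≤ mx1 A.charpoly (mn A v) / ((1 : ℕ) : ℝ) := by positivity
    positivity
  calc c / 512 / W ^ 3 = c / (8 * W) ^ 3 := by
        rw [mul_pow]
        field_simp
        norm_num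
    _ ≤ _ := div_le_div_of_nonneg_left hc.le (by positivity) (pow_le_pow_left₀ h11.le h9 3)

end

end Pool.Agent.Run7.h260.SX
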